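import Mathlib

/-!
# Statements for Fujita's freeness conjecture for weighted complete intersections of codimension two

Project FJ of helper458 (MP_9ff3e7_ag).
-/

namespace Pool.Agent.W458.FJ

open MvPolynomial

/-- The number of `i ∈ S` such that `h` divides `b i`. -/
def cnt {ι : Type} (S : Finset ι) (b : ι → ℕ) (h : ℕ) : ℕ := (S.filter fun i => h ∣ b i).card

/-- The number of the two numbers `d₁`, `d₂` that `h` divides. -/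
def dl (d₁ d₂ h : ℕ) : ℕ := (if h ∣ d₁ then 1 else 0) + (if h ∣ d₂ then 1 else 0)

/-- The regularity condition. -/
def Reg {ι : Type} [Fintype ι] (a : ι → ℕ) (d₁ d₂ : ℕ) : Prop :=
  ∀ h, 1 < h → cnt Finset.univ a h ≤ dl d₁ d₂ h

/-- `f` contains a monomial in the variables of `K` only. -/
def nz {ι : Type} (f : MvPolynomial ι ℂ) (K : Finset ι) : Prop :=
  ∃ m ∈ f.support, m.support ⊆ K

/-- SUM. -/
def SUM : Prop := ∀ (ι : Type) (S : Finset ι) (b : ι → ℕ), (∀ i ∈ S, 0 < b i) →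
  ∀ L₁ L₂ D₁ D₂ : ℕ, 0 < L₁ → 0 < L₂ → 0 < D₁ → 0 < D₂ →
    (∀ h, 1 < h → cnt S b h + dl L₁ L₂ h ≤ dl D₁ D₂ h) →
      ∑ i ∈ S, (b i - 1) + (L₁ - 1) + (L₂ - 1) ≤ (D₁ - 1) + (D₂ - 1)

/-- B1. -/
def B1 : Prop := ∀ (ι : Type) [Fintype ι] [DecidableEq ι] (a : ι → ℕ) (d₁ d₂ : ℕ),
  (∀ i, 0 < a i) → 0 < d₁ → 0 < d₂ → Reg a d₁ d₂ → ∀ x y : ι, x ≠ y → Nat.Coprime (a x) (a y) →
    a x ∣ d₁ → a y ∣ d₁ →
      ∑ i, (a i - 1) + (a x - 1) * (a y - 1) ≤ (d₁ - 1) + (d₂ - 1)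

/-- B2. -/
def B2 : Prop := ∀ (ι : Type) [Fintype ι] [DecidableEq ι] (a : ι → ℕ) (d₁ d₂ : ℕ),
  (∀ i, 0 < a i) → 0 < d₁ → 0 < d₂ → Reg a d₁ d₂ → ∀ x y : ι, x ≠ y →
    a x ∣ d₁ → ¬ a x ∣ d₂ → a y ∣ d₂ → ¬ a y ∣ d₁ → a x * a y ≤ d₁ → a x * a y ≤ d₂ →
      ∑ i, (a i - 1) + (a x - 1) * (a y - 1) ≤ (d₁ - 1) + (d₂ - 1)

/-- C1. -/
def C1 : Prop := ∀ (ι : Type) [Fintype ι] [DecidableEq ι] (a : ι → ℕ) (d₁ d₂ : ℕ),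
  (∀ i, 0 < a i) → 0 < d₁ → 0 < d₂ → Reg a d₁ d₂ → ∀ x y z : ι, x ≠ y → x ≠ z → y ≠ z →
    a x ∣ d₁ → a y ∣ d₁ → a z ∣ d₂ →
      ∑ i, (a i - 1) + Nat.lcm (a x) (a y) + Nat.lcm (Nat.gcd (a x) (a y)) (a z) + 1 ≤
        (d₁ - 1) + (d₂ - 1) + a x + a y + a z

/-- C2. -/
def C2 : Prop := ∀ (ι : Type) [Fintype ι] [DecidableEq ι] (a : ι → ℕ) (d₁ d₂ : ℕ),
  (∀ i, 0 < a i) → 0 < d₁ → 0 < d₂ → Reg a d₁ d₂ → ∀ x y z : ι, x ≠ y → x ≠ z → y ≠ z →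
    a x ∣ d₁ → a y ∣ d₁ → a z ∣ d₁ → ¬ a x ∣ d₂ → ¬ a y ∣ d₂ → ¬ a z ∣ d₂ →
      ∑ i, (a i - 1) + Nat.lcm (a x) (a y) + Nat.lcm (Nat.gcd (a x) (a y)) (a z) + 1 ≤
        (d₁ - 1) + (d₂ - 1) + a x + a y + a z

/-- SG3: the bound of Brauer for three generators. -/
def SG3 : Prop := ∀ a b w n : ℕ, 0 < a → 0 < b → 0 < w → Nat.gcd (Nat.gcd a b) w = 1 →
  Nat.lcm a b + Nat.lcm (Nat.gcd a b) w + 1 ≤ n + a + b + w →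
    ∃ s t u : ℕ, n = s * a + t * b + u * w

/-- Z1: one weighted homogeneous polynomial in at least two variables has a nontrivial zero. -/
def Z1 : Prop := ∀ (ι : Type) [Fintype ι] [DecidableEq ι] (a : ι → ℕ), (∀ i, 0 < a i) →
  ∀ (d : ℕ), 0 < d → ∀ f : MvPolynomial ι ℂ, IsWeightedHomogeneous a f d →
    ∀ K : Finset ι, 2 ≤ K.card →
      ∃ v : ι → ℂ, v ≠ 0 ∧ (∀ i, i ∉ K → v i = 0) ∧ eval v f = 0

/-- Z2: two weighted homogeneous polynomials in at least three variables have a nontrivial common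
zero. -/
def Z2 : Prop := ∀ (ι : Type) [Fintype ι] [DecidableEq ι] (a : ι → ℕ), (∀ i, 0 < a i) →
  ∀ (d₁ d₂ : ℕ), 0 < d₁ → 0 < d₂ → ∀ f₁ f₂ : MvPolynomial ι ℂ, IsWeightedHomogeneous a f₁ d₁ →
    IsWeightedHomogeneous a f₂ d₂ → ∀ K : Finset ι, 3 ≤ K.card →
      ∃ v : ι → ℂ, v ≠ 0 ∧ (∀ i, i ∉ K → v i = 0) ∧ eval v f₁ = 0 ∧ eval v f₂ = 0

/-- TOR: a pure power of `x` and a zero in the torus of the line of `x` and `y`. -/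
def TOR : Prop := ∀ (ι : Type) [Fintype ι] [DecidableEq ι] (a : ι → ℕ), (∀ i, 0 < a i) →
  ∀ (d : ℕ) (f : MvPolynomial ι ℂ), IsWeightedHomogeneous a f d → ∀ x y : ι, x ≠ y →
    Nat.Coprime (a x) (a y) → nz f {x} → ∀ v : ι → ℂ, v x ≠ 0 → v y ≠ 0 →
      (∀ i, i ≠ x → i ≠ y → v i = 0) → eval v f = 0 → a x * a y ≤ d

/-- The set-up. -/
structure Setup {ι : Type} [Fintype ι] (a : ι → ℕ) (d₁ d₂ : ℕ) (f₁ f₂ : MvPolynomial ι ℂ) :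
    Prop where
  ha : ∀ i, 0 < a i
  hd₁ : 0 < d₁
  hd₂ : 0 < d₂
  hf₁ : IsWeightedHomogeneous a f₁ d₁
  hf₂ : IsWeightedHomogeneous a f₂ d₂
  hgcd : ∀ v : ι → ℂ, v ≠ 0 → eval v f₁ = 0 → eval v f₂ = 0 →
    ∀ g : ℕ, (∀ i, v i ≠ 0 → g ∣ a i) → g = 1

/-- GEO: a set of variables `K` such that no point of `X` is supported on `K`. -/
def GEO : Prop := ∀ (ι : Type) [Fintype ι] [DecidableEq ι] (a : ι → ℕ) (d₁ d₂ : ℕ)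
  (f₁ f₂ : MvPolynomial ι ℂ), Setup a d₁ d₂ f₁ f₂ → ∀ K : Finset ι, K.Nonempty →
    (∀ v : ι → ℂ, v ≠ 0 → (∀ i, i ∉ K → v i = 0) → ¬ (eval v f₁ = 0 ∧ eval v f₂ = 0)) →
      (nz f₁ K ∨ nz f₂ K) ∧ (2 ≤ K.card → nz f₁ K ∧ nz f₂ K) ∧ K.card ≤ 2

/-- REG. -/
def REG : Prop := ∀ (ι : Type) [Fintype ι] [DecidableEq ι] (a : ι → ℕ) (d₁ d₂ : ℕ)
  (f₁ f₂ : MvPolynomial ι ℂ), Setup a d₁ d₂ f₁ f₂ → Reg a d₁ d₂

/-- ASM: the numbers `e` above the bound are represented by monomials without zero at `v`. -/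
def ASM : Prop := ∀ (ι : Type) [Fintype ι] [DecidableEq ι] (a : ι → ℕ) (d₁ d₂ : ℕ)
  (f₁ f₂ : MvPolynomial ι ℂ), Setup a d₁ d₂ f₁ f₂ →
    ∀ e : ℕ, (d₁ - 1) + (d₂ - 1) ≤ e + ∑ i, (a i - 1) →
      ∀ v : ι → ℂ, v ≠ 0 → eval v f₁ = 0 → eval v f₂ = 0 →
        ∃ c : ι → ℕ, (∀ i, v i = 0 → c i = 0) ∧ ∑ i, c i * a i = e

end Pool.Agent.W458.FJ
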