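import Mathlib
import Pool.Agent.W458.FJ.Stm

namespace Pool.Agent.W458.FJ.B1P

open Pool.Agent.W458.FJ

theorem cnt_split2 {ι : Type} [Fintype ι] [DecidableEq ι] (a : ι → ℕ) (x y : ι) (hxy : x ≠ y)
    (q : ℕ) :
    cnt Finset.univ a q = cnt ((Finset.univ.erase x).erase y) a q +
      (if q ∣ a x then 1 else 0) + (if q ∣ a y then 1 else 0) := by
  unfold cnt
  rw [Finset.card_filter, Finset.card_filter]
  have h1 := Finset.add_sum_erase (Finset.univ) (fun i => if q ∣ a i then 1 else 0)
    (Finset.mem_univ x)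
  have h2 := Finset.add_sum_erase (Finset.univ.erase x) (fun i => if q ∣ a i then 1 else 0)
    (show y ∈ Finset.univ.erase x by simp [hxy.symm])
  omega

theorem cnt_mono {ι : Type} (S : Finset ι) (a : ι → ℕ) {q h : ℕ} (hq : q ∣ h) :
    cnt S a h ≤ cnt S a q := by
  unfold cnt
  refine Finset.card_le_card fun i hi => ?_
  rw [Finset.mem_filter] at hi ⊢
  exact ⟨hi.1, hq.trans hi.2⟩

theorem dl_le (d₁ d₂ h : ℕ) : dl d₁ d₂ h ≤ 2 := by
  unfold dl
  split_ifs <;> omega

theorem dl_two {d₁ d₂ h : ℕ} (h2 : 2 ≤ dl d₁ d₂ h) : h ∣ d₁ ∧ h ∣ d₂ := by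
  unfold dl at h2
  split_ifs at h2 with h3 h4 h4
  · exact ⟨h3, h4⟩
  all_goals omega

theorem main : SUM → B1 := by
  intro hSUM ι _ _ a d₁ d₂ ha hd1 hd2 hreg x y hxy hco hx hy
  set S : Finset ι := (Finset.univ.erase x).erase y with hS
  have hsplit : ∀ q, cnt Finset.univ a q = cnt S a q +
      (if q ∣ a x then 1 else 0) + (if q ∣ a y then 1 else 0) :=
    fun q => cnt_split2 a x y hxy q
  have hax := ha x
  have hay := ha y
  have hLd : a x * a y ∣ d₁ := hco.mul_dvd_of_dvd_of_dvd hx hy
  have hL0 : 0 < a x * a y := Nat.mul_pos hax hay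
  have hone : ∀ q : ℕ, 1 < q → (q ∣ a x ∨ q ∣ a y) → 1 ≤ cnt S a q →
      q ∣ d₂ ∧ cnt S a q ≤ 1 := by
    intro q hq h1 h2
    have h3 := hreg q hq
    have h4 := hsplit q
    have h5 := dl_le d₁ d₂ q
    have h6 : 1 ≤ (if q ∣ a x then 1 else 0) + (if q ∣ a y then 1 else 0) := by
      rcases h1 with h | h
      · rw [if_pos h]; omega
      · rw [if_pos h]; omega
    have h7 := dl_two (d₁ := d₁) (d₂ := d₂) (h := q) (by omega)
    exact ⟨h7.2, by omega⟩
  have hmain : ∀ h, 1 < h → cnt S a h + dl (a x * a y) 1 h ≤ dl d₁ d₂ h := by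
    intro h hh
    have h1 : ¬ h ∣ 1 := by
      rw [Nat.dvd_one]; omega
    by_cases hL : h ∣ a x * a y
    · have e1 : dl (a x * a y) 1 h = 1 := by
        unfold dl
        rw [if_pos hL, if_neg h1]
      rw [e1]
      have hd : h ∣ d₁ := hL.trans hLd
      by_cases hm : cnt S a h = 0
      · rw [hm]
        unfold dl
        rw [if_pos hd]
        omega
      · have e2 : Nat.gcd h (a x) * Nat.gcd h (a y) = h := by
          rw [← Nat.Coprime.gcd_mul h hco]
          exact Nat.gcd_eq_left hL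
        have k1 : Nat.gcd h (a x) = 1 ∨ (Nat.gcd h (a x) ∣ d₂ ∧ cnt S a (Nat.gcd h (a x)) ≤ 1) := by
          by_cases h3 : Nat.gcd h (a x) = 1
          · exact Or.inl h3
          · right
            have h4 : 0 < Nat.gcd h (a x) := Nat.gcd_pos_of_pos_right _ hax
            have h5 := cnt_mono S a (Nat.gcd_dvd_left h (a x))
            exact hone _ (by omega) (Or.inl (Nat.gcd_dvd_right _ _)) (by omega)
        have k2 : Nat.gcd h (a y) = 1 ∨ (Nat.gcd h (a y) ∣ d₂ ∧ cnt S a (Nat.gcd h (a y)) ≤ 1) := by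
          by_cases h3 : Nat.gcd h (a y) = 1
          · exact Or.inl h3
          · right
            have h4 : 0 < Nat.gcd h (a y) := Nat.gcd_pos_of_pos_right _ hay
            have h5 := cnt_mono S a (Nat.gcd_dvd_left h (a y))
            exact hone _ (by omega) (Or.inr (Nat.gcd_dvd_right _ _)) (by omega)
        have k3 : Nat.gcd h (a x) ∣ d₂ := by
          rcases k1 with k1 | k1
          · rw [k1]; exact one_dvd _
          · exact k1.1
        have k4 : Nat.gcd h (a y) ∣ d₂ := by
          rcases k2 with k2 | k2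
          · rw [k2]; exact one_dvd _
          · exact k2.1
        have k5 : h ∣ d₂ := by
          rw [← e2]
          exact (Nat.Coprime.coprime_dvd_left (Nat.gcd_dvd_right _ _)
            (Nat.Coprime.coprime_dvd_right (Nat.gcd_dvd_right _ _) hco)).mul_dvd_of_dvd_of_dvd k3 k4
        have k6 : cnt S a h ≤ 1 := by
          rcases k1 with k1 | k1
          · rcases k2 with k2 | k2
            · rw [k1, k2] at e2; omega
            · exact (cnt_mono S a (Nat.gcd_dvd_left h (a y))).trans k2.2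
          · exact (cnt_mono S a (Nat.gcd_dvd_left h (a x))).trans k1.2
        unfold dl
        rw [if_pos hd, if_pos k5]
        omega
    · have e1 : dl (a x * a y) 1 h = 0 := by
        unfold dl
        rw [if_neg hL, if_neg h1]
      rw [e1]
      have := hreg h hh
      have := hsplit h
      omega
  have hfin := hSUM ι S a (fun i _ => ha i) (a x * a y) 1 d₁ d₂ hL0 one_pos hd1 hd2 hmain
  have h1 := Finset.add_sum_erase (Finset.univ) (fun i => a i - 1) (Finset.mem_univ x)
  have h2 := Finset.add_sum_erase (Finset.univ.erase x) (fun i => a i - 1)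
    (show y ∈ Finset.univ.erase x by simp [hxy.symm])
  rw [← hS] at h2
  obtain ⟨u, hu⟩ : ∃ u, a x = u + 1 := ⟨a x - 1, by omega⟩
  obtain ⟨v, hv⟩ : ∃ v, a y = v + 1 := ⟨a y - 1, by omega⟩
  have e1 : a x * a y = u * v + u + v + 1 := by rw [hu, hv]; ring
  rw [e1] at hfin
  have e2 : a x - 1 = u := by omega
  have e3 : a y - 1 = v := by omega
  rw [e2, e3]
  rw [e2] at h1
  rw [e3] at h2
  generalize u * v = P at *
  omega

end Pool.Agent.W458.FJ.B1P
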