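import Mathlib
import Pool.Agent.W458.FJ.Stm
import Pool.Agent.W239.FJ.B2
import Pool.Agent.W64.FJ.C1

namespace Pool.Agent.W458.FJ.C2P

open Pool.Agent.W458.FJ

/-- Common prime powers of `M` and `c` divide `g`. -/
def Good (g M c : ℕ) : Prop := ∀ p k : ℕ, p.Prime → p ^ k ∣ c → p ^ k ∣ M → p ^ k ∣ g

theorem good_dvd {g M c : ℕ} (h : M ∣ g) : Good g M c := fun _ _ _ _ h2 => h2.trans h

theorem good_gcd {g M c : ℕ} (h : Nat.gcd c M ∣ g) : Good g M c :=
  fun _ _ _ h1 h2 => (Nat.dvd_gcd h1 h2).trans h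

theorem good_lcm {g u v c : ℕ} (hu0 : u ≠ 0) (hv0 : v ≠ 0) (hu : Good g u c) (hv : Good g v c) :
    Good g (Nat.lcm u v) c := by
  intro p k hp h1 h2
  rcases Pool.Agent.W239.FJ.B2.pp p k u v hp hu0 hv0 h2 with h3 | h3
  · exact hu p k hp h1 h3
  · exact hv p k hp h1 h3

theorem good_two {g M c d₁ d₂ : ℕ} (hM : 0 < M) (hc : 0 < c) (hg : g ∣ d₂) (hcd : ¬ c ∣ d₂)
    (h : Good g M c) : 2 * M ≤ Nat.lcm M c := by
  obtain ⟨m, hm⟩ := Nat.dvd_lcm_left M c
  have h0 : Nat.lcm M c ≠ 0 := Nat.lcm_ne_zero hM.ne' hc.ne'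
  have h1 : m ≠ 0 := by
    rintro rfl
    simp at hm
    omega
  have h2 : m ≠ 1 := by
    rintro rfl
    rw [mul_one] at hm
    have h3 : c ∣ M := by
      have := Nat.dvd_lcm_right M c
      rwa [hm] at this
    apply hcd
    refine dvd_trans ?_ hg
    rw [Nat.dvd_iff_prime_pow_dvd_dvd]
    intro p k hp hk
    exact h p k hp hk (hk.trans h3)
  have h3 : 2 ≤ m := by omega
  calc 2 * M = M * 2 := Nat.mul_comm _ _
    _ ≤ M * m := Nat.mul_le_mul_left _ h3
    _ = Nat.lcm M c := hm.symm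

theorem main : SUM → C2 := by
  intro hSUM ι _ _ a d₁ d₂ ha hd1 hd2 hreg x y z hxy hxz hyz hx hy hz hx' hy' hz'
  set S : Finset ι := ((Finset.univ.erase x).erase y).erase z with hS
  have hsplit : ∀ q, cnt Finset.univ a q = cnt S a q +
      (if q ∣ a x then 1 else 0) + (if q ∣ a y then 1 else 0) + (if q ∣ a z then 1 else 0) :=
    fun q => Pool.Agent.W64.FJ.C1.cnt_split a x y z hxy hxz hyz q
  obtain ⟨g, hg⟩ : ∃ g, g = Nat.gcd d₁ d₂ := ⟨_, rfl⟩
  have hg0 : 0 < g := by rw [hg]; exact Nat.gcd_pos_of_pos_left _ hd1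
  have hg1 : g ∣ d₁ := by rw [hg]; exact Nat.gcd_dvd_left _ _
  have hg2 : g ∣ d₂ := by rw [hg]; exact Nat.gcd_dvd_right _ _
  have hax := ha x
  have hay := ha y
  have haz := ha z
  have K : ∀ i j : ι, i ≠ j → a i ∣ d₁ → Nat.gcd (a i) (a j) ∣ g := by
    intro i j hij hi
    have ht1 : Nat.gcd (a i) (a j) ∣ d₁ := (Nat.gcd_dvd_left _ _).trans hi
    rw [hg]
    refine Nat.dvd_gcd ht1 ?_
    by_contra ht2
    have ht : 1 < Nat.gcd (a i) (a j) := by
      have h5 : 0 < Nat.gcd (a i) (a j) := Nat.gcd_pos_of_pos_left _ (ha i)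
      have h6 : Nat.gcd (a i) (a j) ≠ 1 := by
        intro h7
        rw [h7] at ht2
        exact ht2 (one_dvd _)
      omega
    have h5 := hreg _ ht
    have h6 : dl d₁ d₂ (Nat.gcd (a i) (a j)) = 1 := by
      unfold dl
      rw [if_pos ht1, if_neg ht2]
    have h7 : 2 ≤ cnt Finset.univ a (Nat.gcd (a i) (a j)) := by
      unfold cnt
      have h8 : ({i, j} : Finset ι) ⊆ Finset.univ.filter fun l => Nat.gcd (a i) (a j) ∣ a l := by
        intro l hl
        rw [Finset.mem_insert, Finset.mem_singleton] at hl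
        rw [Finset.mem_filter]
        refine ⟨Finset.mem_univ _, ?_⟩
        rcases hl with rfl | rfl
        · exact Nat.gcd_dvd_left _ _
        · exact Nat.gcd_dvd_right _ _
      have h9 := Finset.card_le_card h8
      rwa [Finset.card_pair hij] at h9
    omega
  obtain ⟨T, hT⟩ : ∃ T : Finset ι, T = S.filter fun i => a i ∣ d₁ ∧ ¬ a i ∣ d₂ := ⟨_, rfl⟩
  have hTl0 : T.lcm a ≠ 0 := by
    rw [Ne, Finset.lcm_eq_zero_iff]
    rintro ⟨i, _, hi⟩
    exact (ha i).ne' hi
  have hTd : T.lcm a ∣ d₁ := by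
    refine Finset.lcm_dvd fun i hi => ?_
    rw [hT, Finset.mem_filter] at hi
    exact hi.2.1
  have hGT : ∀ c : ι, c ∉ T → a c ∣ d₁ → Good g (T.lcm a) (a c) := by
    intro c hc hcd p k hp h1 h2
    refine Pool.Agent.W239.FJ.B2.ppl a (a c) g p k hp T (fun i => (ha i).ne') ?_ h1 h2
    intro i hi
    exact K c i (fun h => hc (h ▸ hi)) hcd
  have hxT : x ∉ T := by rw [hT]; simp [hS]
  have hyT : y ∉ T := by rw [hT]; simp [hS]
  have hzT : z ∉ T := by rw [hT]; simp [hS]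
  obtain ⟨Q, hQ⟩ : ∃ Q, Q = Nat.lcm g (T.lcm a) := ⟨_, rfl⟩
  have hQ0 : 0 < Q := by
    rw [hQ]; exact Nat.pos_of_ne_zero (Nat.lcm_ne_zero hg0.ne' hTl0)
  have hQd : Q ∣ d₁ := by rw [hQ]; exact Nat.lcm_dvd hg1 hTd
  have G : ∀ i j : ι, i ≠ j → a i ∣ d₁ → a j ∣ d₁ → Good g (a j) (a i) :=
    fun i j hij hi _ => good_gcd (K i j hij hi)
  -- `4 Q ≤ d₁`
  have r1 : 4 * Q ≤ d₁ := by
    have h1 : Good g Q (a x) := by
      rw [hQ]; exact good_lcm hg0.ne' hTl0 (good_dvd dvd_rfl) (hGT x hxT hx)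
    have h2 : Good g Q (a y) := by
      rw [hQ]; exact good_lcm hg0.ne' hTl0 (good_dvd dvd_rfl) (hGT y hyT hy)
    have h3 := good_two (d₁ := d₁) hQ0 hax hg2 hx' h1
    have h4 : Good g (Nat.lcm Q (a x)) (a y) :=
      good_lcm hQ0.ne' hax.ne' h2 (G y x hxy.symm hy hx)
    have h5 := good_two (d₁ := d₁) (Nat.lcm_pos hQ0 hax) hay hg2 hy' h4
    have h6 : Nat.lcm (Nat.lcm Q (a x)) (a y) ≤ d₁ :=
      Nat.le_of_dvd hd1 (Nat.lcm_dvd (Nat.lcm_dvd hQd hx) hy)
    omega
  have hgxy := K x y hxy hx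
  obtain ⟨t, ht⟩ : ∃ t, t = Nat.gcd (a x) (a y) := ⟨_, rfl⟩
  have ht0 : 0 < t := by rw [ht]; exact Nat.gcd_pos_of_pos_left _ hax
  rw [← ht] at hgxy
  have r2 : 4 * Nat.lcm t (a z) ≤ d₁ := by
    have h1 : Good g (Nat.lcm t (a z)) (a x) :=
      good_lcm ht0.ne' haz.ne' (good_dvd hgxy) (G x z hxz hx hz)
    have h2 : Good g (Nat.lcm t (a z)) (a y) :=
      good_lcm ht0.ne' haz.ne' (good_dvd hgxy) (G y z hyz hy hz)
    have h3 := good_two (d₁ := d₁) (Nat.lcm_pos ht0 haz) hax hg2 hx' h1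
    have h4 : Good g (Nat.lcm (Nat.lcm t (a z)) (a x)) (a y) :=
      good_lcm (Nat.lcm_pos ht0 haz).ne' hax.ne' h2 (G y x hxy.symm hy hx)
    have h5 := good_two (d₁ := d₁) (Nat.lcm_pos (Nat.lcm_pos ht0 haz) hax) hay hg2 hy' h4
    have h6 : Nat.lcm (Nat.lcm (Nat.lcm t (a z)) (a x)) (a y) ≤ d₁ :=
      Nat.le_of_dvd hd1 (Nat.lcm_dvd (Nat.lcm_dvd (Nat.lcm_dvd (hgxy.trans hg1) hz) hx) hy)
    omega
  have r3 : 2 * Nat.lcm (a x) (a y) ≤ d₁ := by
    have h1 : Good g (Nat.lcm (a x) (a y)) (a z) :=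
      good_lcm hax.ne' hay.ne' (G z x hxz.symm hz hx) (G z y hyz.symm hz hy)
    have h3 := good_two (d₁ := d₁) (Nat.lcm_pos hax hay) haz hg2 hz' h1
    have h6 : Nat.lcm (Nat.lcm (a x) (a y)) (a z) ≤ d₁ :=
      Nat.le_of_dvd hd1 (Nat.lcm_dvd (Nat.lcm_dvd hx hy) hz)
    omega
  have hmain : ∀ h, 1 < h → cnt S a h + dl 1 1 h ≤ dl Q d₂ h := by
    intro h hh
    have e1 : dl 1 1 h = 0 := by
      unfold dl
      rw [if_neg]
      intro h3
      have := Nat.le_of_dvd one_pos h3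
      omega
    rw [e1, Nat.add_zero]
    have hle := hsplit h
    have hr := hreg h hh
    by_cases hgh : h ∣ g
    · have e2 : dl Q d₂ h = 2 := by
        unfold dl
        rw [if_pos (hgh.trans (by rw [hQ]; exact Nat.dvd_lcm_left _ _)), if_pos (hgh.trans hg2)]
      have e3 := Pool.Agent.W64.FJ.C1.dl_le d₁ d₂ h
      omega
    · by_cases h0 : cnt S a h = 0
      · rw [h0]
        exact Nat.zero_le _
      · have e3 : dl d₁ d₂ h ≤ 1 := by
          unfold dl
          split_ifs with h3 h4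
          · exact absurd (by rw [hg]; exact Nat.dvd_gcd h3 h4) hgh
          all_goals omega
        obtain ⟨i, hi⟩ : (S.filter fun i => h ∣ a i).Nonempty :=
          Finset.card_pos.1 (Nat.pos_of_ne_zero h0)
        rw [Finset.mem_filter] at hi
        obtain ⟨hiS, hia⟩ := hi
        have hai : 1 < a i := by
          have := Nat.le_of_dvd (ha i) hia
          omega
        have hri := hreg (a i) hai
        have hci : 1 ≤ cnt Finset.univ a (a i) := by
          unfold cnt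
          exact Finset.card_pos.2 ⟨i, Finset.mem_filter.2 ⟨Finset.mem_univ i, dvd_refl _⟩⟩
        have hfin : 1 ≤ dl Q d₂ h := by
          by_cases hd : a i ∣ d₂
          · unfold dl
            rw [if_pos (hia.trans hd)]
            omega
          · have hd' : a i ∣ d₁ := by
              by_contra hne
              have : dl d₁ d₂ (a i) = 0 := by
                unfold dl
                rw [if_neg hne, if_neg hd]
              omega
            have hiT : i ∈ T := by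
              rw [hT, Finset.mem_filter]; exact ⟨hiS, hd', hd⟩
            have h6 : h ∣ Q := by
              rw [hQ]
              exact hia.trans ((Finset.dvd_lcm (f := a) hiT).trans (Nat.dvd_lcm_right _ _))
            unfold dl
            rw [if_pos h6]
            omega
        omega
  have hfin := hSUM ι S a (fun i _ => ha i) 1 1 Q d₂ one_pos one_pos hQ0 hd2 hmain
  have h1 := Finset.add_sum_erase (Finset.univ) (fun i => a i - 1) (Finset.mem_univ x)
  have h2 := Finset.add_sum_erase (Finset.univ.erase x) (fun i => a i - 1)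
    (show y ∈ Finset.univ.erase x by simp [hxy.symm])
  have h3 := Finset.add_sum_erase ((Finset.univ.erase x).erase y) (fun i => a i - 1)
    (show z ∈ (Finset.univ.erase x).erase y by simp [hxz.symm, hyz.symm])
  rw [← hS] at h3
  rw [← ht]
  omega

end Pool.Agent.W458.FJ.C2P
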