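import Mathlib
import Pool.Agent.W458.FJ.Stm

namespace Pool.Agent.W458.FJ.REGP

open Pool.Agent.W458.FJ MvPolynomial

theorem nz_dvd {ι : Type} [Fintype ι] (a : ι → ℕ) (d h : ℕ) (f : MvPolynomial ι ℂ)
    (hf : IsWeightedHomogeneous a f d) (K : Finset ι) (hK : ∀ i ∈ K, h ∣ a i) (hn : nz f K) :
    h ∣ d := by
  obtain ⟨m, hm, hmK⟩ := hn
  have h1 := hf (mem_support_iff.mp hm)
  rw [← h1, Finsupp.weight_apply, Finsupp.sum]
  refine Finset.dvd_sum fun i hi => ?_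
  simp only [smul_eq_mul]
  exact Dvd.dvd.mul_left (hK i (hmK hi)) _

theorem main : GEO → REG := by
  intro hGEO ι _ _ a d₁ d₂ f₁ f₂ hS h hh
  by_cases h0 : cnt Finset.univ a h = 0
  · rw [h0]; exact Nat.zero_le _
  obtain ⟨K, hK⟩ : ∃ K : Finset ι, K = Finset.univ.filter fun i => h ∣ a i := ⟨_, rfl⟩
  have hc : cnt Finset.univ a h = K.card := by rw [hK]; rfl
  have hKm : ∀ i, i ∈ K ↔ h ∣ a i := by intro i; rw [hK]; simp
  have hne : K.Nonempty := by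
    rw [← Finset.card_pos]; omega
  obtain ⟨g1, g2, g3⟩ := hGEO ι a d₁ d₂ f₁ f₂ hS K hne (by
    rintro v hv hvK ⟨hv1, hv2⟩
    have := hS.hgcd v hv hv1 hv2 h (fun i hi => by
      by_contra hni
      exact hi (hvK i (fun h2 => hni ((hKm i).mp h2))))
    omega)
  rw [hc]
  unfold dl
  have e1 : nz f₁ K → h ∣ d₁ := nz_dvd a d₁ h f₁ hS.hf₁ K (fun i hi => (hKm i).mp hi)
  have e2 : nz f₂ K → h ∣ d₂ := nz_dvd a d₂ h f₂ hS.hf₂ K (fun i hi => (hKm i).mp hi)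
  by_cases h2 : 2 ≤ K.card
  · obtain ⟨k1, k2⟩ := g2 h2
    rw [if_pos (e1 k1), if_pos (e2 k2)]
    omega
  · rcases g1 with g1 | g1
    · rw [if_pos (e1 g1)]; omega
    · rw [if_pos (e2 g1)]; omega

end Pool.Agent.W458.FJ.REGP
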