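import Mathlib
import Pool.Agent.W458.FJ.Stm

namespace Pool.Agent.W458.FJ.SG3P

open Pool.Agent.W458.FJ

theorem main : SG3 := by
  intro a b w n ha hb hw hg hn
  obtain ⟨g, hgd⟩ : ∃ g, g = Nat.gcd a b := ⟨_, rfl⟩
  have hg0 : 0 < g := by rw [hgd]; exact Nat.gcd_pos_of_pos_left _ ha
  obtain ⟨a1, b1, hco, ha1, hb1⟩ := Nat.exists_coprime a b
  rw [← hgd] at ha1 hb1 hg
  have ha1p : 0 < a1 := by
    rcases Nat.eq_zero_or_pos a1 with h | h
    · subst h; simp at ha1; omega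
    · exact h
  have hb1p : 0 < b1 := by
    rcases Nat.eq_zero_or_pos b1 with h | h
    · subst h; simp at hb1; omega
    · exact h
  have hl1 : Nat.lcm a b = g * a1 * b1 := by
    have := Nat.gcd_mul_lcm a b
    rw [← hgd] at this
    have h2 : g * Nat.lcm a b = g * (g * a1 * b1) := by
      rw [this]; conv_lhs => rw [ha1, hb1]
      ring
    exact Nat.eq_of_mul_eq_mul_left hg0 h2
  have hl2 : Nat.lcm g w = g * w := Nat.Coprime.lcm_eq_mul hg
  rw [← hgd, hl1, hl2] at hn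
  have hwg : Nat.Coprime w g := Nat.Coprime.symm hg
  obtain ⟨k, hk0, hkn⟩ : ∃ k, k < w * g ∧ (k ≡ 0 [MOD w] ∧ k ≡ n [MOD g]) :=
    ⟨Nat.chineseRemainder hwg 0 n, Nat.chineseRemainder_lt_mul hwg 0 n hw.ne' hg0.ne',
      (Nat.chineseRemainder hwg 0 n).2⟩
  obtain ⟨hkw, hkn⟩ := hkn
  obtain ⟨u, hu⟩ := (Nat.modEq_zero_iff_dvd.mp hkw)
  have hug : u < g := by
    rw [hu] at hk0
    exact lt_of_mul_lt_mul_left hk0 (Nat.zero_le _)
  have hd : (g : ℤ) ∣ (n : ℤ) - k := (Nat.modEq_iff_dvd).mp hkn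
  obtain ⟨m, hm⟩ := hd
  have e1 : (g : ℤ) * m > g * (((a1 : ℤ) - 1) * (b1 - 1) - 1) := by
    rw [← hm]
    have h1 : (k : ℤ) = w * u := by exact_mod_cast hu
    have h2 : (u : ℤ) ≤ g - 1 := by omega
    have h3 : (w : ℤ) * u ≤ w * (g - 1) := by
      apply mul_le_mul_of_nonneg_left h2; omega
    have h4 : ((g : ℤ) * a1 * b1 + g * w + 1) ≤ n + a + b + w := by exact_mod_cast hn
    have h5 : (a : ℤ) = a1 * g := by exact_mod_cast ha1
    have h6 : (b : ℤ) = b1 * g := by exact_mod_cast hb1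
    rw [h5, h6] at h4
    nlinarith
  have e2 : m > ((a1 : ℤ) - 1) * (b1 - 1) - 1 := by
    have : (0 : ℤ) < g := by exact_mod_cast hg0
    exact lt_of_mul_lt_mul_left e1 this.le
  have e3 : (0 : ℤ) ≤ ((a1 : ℤ) - 1) * (b1 - 1) := by
    apply mul_nonneg <;> omega
  obtain ⟨m', rfl⟩ : ∃ m' : ℕ, m = m' := ⟨m.toNat, by omega⟩
  have e4 : (a1 - 1) * (b1 - 1) ≤ m' := by
    have h7 : (((a1 - 1) * (b1 - 1) : ℕ) : ℤ) = ((a1 : ℤ) - 1) * (b1 - 1) := by
      push_cast [Nat.cast_sub (show 1 ≤ a1 from ha1p), Nat.cast_sub (show 1 ≤ b1 from hb1p)]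
      ring
    omega
  obtain ⟨s, t, hst⟩ := Nat.exists_add_mul_eq_of_gcd_dvd_of_mul_pred_le a1 b1 m'
    (by rw [Nat.Coprime.gcd_eq_one hco]; exact one_dvd _) e4
  refine ⟨s, t, u, ?_⟩
  have h8 : (n : ℤ) = s * a + t * b + u * w := by
    have h1 : (k : ℤ) = w * u := by exact_mod_cast hu
    have h5 : (a : ℤ) = a1 * g := by exact_mod_cast ha1
    have h6 : (b : ℤ) = b1 * g := by exact_mod_cast hb1
    have h9 : (s : ℤ) * a1 + t * b1 = m' := by exact_mod_cast hst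
    rw [h5, h6]
    have : (n : ℤ) = g * m' + k := by linarith
    rw [this, h1, ← h9]; ring
  exact_mod_cast h8

end Pool.Agent.W458.FJ.SG3P
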