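import Mathlib
import Pool.Agent.W458.FJ.Stm

namespace Pool.Agent.W458.FJ.SUMP

open Pool.Agent.W458.FJ

lemma sub_one_eq (M m : ℕ) (hm : 0 < m) (hM : m ≤ M) :
    m - 1 = ∑ h ∈ Finset.Icc 2 M, Nat.totient h * (if h ∣ m then 1 else 0) := by
  have h1 : ∑ h ∈ m.divisors, Nat.totient h = m := Nat.sum_totient m
  have h2 : m.divisors = insert 1 ((Finset.Icc 2 M).filter (fun h => h ∣ m)) := by
    ext h
    simp only [Nat.mem_divisors, Finset.mem_insert, Finset.mem_filter, Finset.mem_Icc]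
    constructor
    · rintro ⟨h3, h4⟩
      have h5 := Nat.le_of_dvd hm h3
      have h6 : 0 < h := Nat.pos_of_dvd_of_pos h3 hm
      by_cases h7 : h = 1
      · exact Or.inl h7
      · exact Or.inr ⟨⟨by omega, by omega⟩, h3⟩
    · rintro (rfl | ⟨h3, h4⟩)
      · exact ⟨one_dvd _, by omega⟩
      · exact ⟨h4, by omega⟩
  rw [h2, Finset.sum_insert (by simp)] at h1
  simp only [Nat.totient_one] at h1
  rw [Finset.sum_filter] at h1
  have h3 : ∑ h ∈ Finset.Icc 2 M, Nat.totient h * (if h ∣ m then 1 else 0)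
      = ∑ h ∈ Finset.Icc 2 M, (if h ∣ m then Nat.totient h else 0) := by
    apply Finset.sum_congr rfl
    intro h _
    split_ifs <;> simp
  rw [h3]
  omega

theorem main : SUM := by
  intro ι S b hb L₁ L₂ D₁ D₂ hL₁ hL₂ hD₁ hD₂ H
  obtain ⟨M, hM⟩ : ∃ M, M = ∑ i ∈ S, b i + L₁ + L₂ + D₁ + D₂ := ⟨_, rfl⟩
  have e1 : ∑ i ∈ S, (b i - 1) = ∑ h ∈ Finset.Icc 2 M, Nat.totient h * cnt S b h := by
    have : ∀ i ∈ S, b i - 1 = ∑ h ∈ Finset.Icc 2 M, Nat.totient h * (if h ∣ b i then 1 else 0) := by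
      intro i hi
      apply sub_one_eq M _ (hb i hi)
      have := Finset.single_le_sum (f := b) (fun _ _ => Nat.zero_le _) hi
      omega
    rw [Finset.sum_congr rfl this, Finset.sum_comm]
    apply Finset.sum_congr rfl
    intro h _
    rw [← Finset.mul_sum]
    congr 1
    unfold cnt
    rw [Finset.card_filter]
  have e2 := sub_one_eq M L₁ hL₁ (by omega)
  have e3 := sub_one_eq M L₂ hL₂ (by omega)
  have e4 := sub_one_eq M D₁ hD₁ (by omega)
  have e5 := sub_one_eq M D₂ hD₂ (by omega)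
  rw [e1, e2, e3, e4, e5, ← Finset.sum_add_distrib, ← Finset.sum_add_distrib,
    ← Finset.sum_add_distrib]
  apply Finset.sum_le_sum
  intro h hh
  rw [Finset.mem_Icc] at hh
  have := H h (by omega)
  unfold dl at this
  calc _ = Nat.totient h * (cnt S b h + ((if h ∣ L₁ then 1 else 0) + (if h ∣ L₂ then 1 else 0))) := by ring
    _ ≤ Nat.totient h * ((if h ∣ D₁ then 1 else 0) + (if h ∣ D₂ then 1 else 0)) :=
      Nat.mul_le_mul_left _ this
    _ = _ := by ring

end Pool.Agent.W458.FJ.SUMP
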