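import Mathlib
import Pool.Agent.W458.FJ.Stm

/-!
# Fujita's freeness conjecture for weighted complete intersections of codimension two: assembly
-/

namespace Pool.Agent.W458.FJ.FIN

open Pool.Agent.W458.FJ MvPolynomial

/-- The final statement from its parts. -/
theorem main (hSUM : SUM) (hREG : REG) (hASM : ASM) (n : ℕ) (a : Fin (n + 3) → ℕ)
    (ha : ∀ i, 0 < a i) (d₁ d₂ : ℕ) (hd₁ : 0 < d₁) (hd₂ : 0 < d₂)
    (f₁ f₂ : MvPolynomial (Fin (n + 3)) ℂ) (hf₁ : IsWeightedHomogeneous a f₁ d₁)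
    (hf₂ : IsWeightedHomogeneous a f₂ d₂)
    (hgcd : ∀ v : Fin (n + 3) → ℂ, v ≠ 0 → eval v f₁ = 0 → eval v f₂ = 0 →
      ∀ g : ℕ, (∀ i, v i ≠ 0 → g ∣ a i) → g = 1)
    (k : ℕ) (hk : 1 ≤ k) :
    ∃ e : ℕ, e + ∑ i, a i = d₁ + d₂ + k * (n + 1) ∧
      ∀ v : Fin (n + 3) → ℂ, v ≠ 0 → eval v f₁ = 0 → eval v f₂ = 0 →
        ∃ s : MvPolynomial (Fin (n + 3)) ℂ, IsWeightedHomogeneous a s e ∧ eval v s ≠ 0 := by
  have hS : Setup a d₁ d₂ f₁ f₂ := ⟨ha, hd₁, hd₂, hf₁, hf₂, hgcd⟩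
  have hR : Reg a d₁ d₂ := hREG _ a d₁ d₂ f₁ f₂ hS
  have h0 : ∑ i, (a i - 1) + (1 - 1) + (1 - 1) ≤ (d₁ - 1) + (d₂ - 1) := by
    refine hSUM _ Finset.univ a (fun i _ => ha i) 1 1 d₁ d₂ one_pos one_pos hd₁ hd₂ ?_
    intro h hh
    have h1 : dl 1 1 h = 0 := by
      unfold dl
      have : ¬ h ∣ 1 := by
        rw [Nat.dvd_one]; omega
      simp [this]
    rw [h1, add_zero]
    exact hR h hh
  have h1 : ∑ i, a i = ∑ i, (a i - 1) + (n + 3) := by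
    have h2 : ∀ i : Fin (n + 3), a i = (a i - 1) + 1 := fun i => by have := ha i; omega
    calc ∑ i, a i = ∑ i, ((a i - 1) + 1) := Finset.sum_congr rfl (fun i _ => h2 i)
      _ = ∑ i, (a i - 1) + (n + 3) := by
        rw [Finset.sum_add_distrib]; simp
  have h3 : 1 * (n + 1) ≤ k * (n + 1) := Nat.mul_le_mul_right _ hk
  refine ⟨d₁ + d₂ + k * (n + 1) - ∑ i, a i, by omega, ?_⟩
  intro v hv hv₁ hv₂
  obtain ⟨c, hc, hce⟩ := hASM _ a d₁ d₂ f₁ f₂ hS (d₁ + d₂ + k * (n + 1) - ∑ i, a i)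
    (by omega) v hv hv₁ hv₂
  refine ⟨monomial (Finsupp.equivFunOnFinite.symm c) 1, ?_, ?_⟩
  · apply isWeightedHomogeneous_monomial
    rw [Finsupp.weight_apply, Finsupp.sum_fintype _ _ (by simp)]
    simpa using hce
  · rw [eval_monomial, one_mul, Finsupp.prod_fintype _ _ (by simp)]
    refine Finset.prod_ne_zero_iff.mpr fun i _ => ?_
    by_cases hi : v i = 0
    · have := hc i hi
      simp [this]
    · exact pow_ne_zero _ hi

end Pool.Agent.W458.FJ.FIN
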